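import Pool.Agent.Helper86.TK.Defs

open Set Filter Topology

namespace Pool.Agent.Helper86.TK

theorem sval_ind01 (x : ℕ → Bool) (n : ℕ) (t : T) : ind x n t = 0 ∨ ind x n t = 1 := by
  unfold ind
  split_ifs <;> simp

theorem st_SVAL : ST_SVAL := by
  intro Γ r η G f hsep t
  by_cases h : ∃ x ∈ G, ind (r x) (f x) t = 1
  · left
    obtain ⟨x, hx, hx1⟩ := h
    refine ⟨x, hx, hx1, fun a => ?_⟩
    unfold S
    rw [finsum_eq_single _ x]
    · simp [hx, hx1]
    · intro y hy
      by_cases hyG : y ∈ G
      · have := hsep x hx y hyG (Ne.symm hy) t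
        rw [hx1, one_mul] at this
        simp [this]
      · simp [hyG]
  · right
    push Not at h
    have h0 : ∀ x ∈ G, ind (r x) (f x) t = 0 := fun x hx =>
      (sval_ind01 (r x) (f x) t).resolve_right (h x hx)
    refine ⟨h0, fun a => ?_⟩
    unfold S
    rw [finsum_eq_zero_of_forall_eq_zero]
    intro x
    by_cases hx : x ∈ G
    · simp [h0 x hx]
    · simp [hx]

end Pool.Agent.Helper86.TK
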