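import Pool.Agent.Helper86.TK.Final
import Pool.Agent.Helper86.TK.SVAL
import Pool.Agent.Helper1.TK.Mem
import Pool.Agent.Helper1.TK.Lim
import Pool.Agent.Helper1.TK.Supp
import Pool.Agent.Helper52.TK.INX
import Pool.Agent.Helper52.TK.WK
import Pool.Agent.Helper53.TK.FL2
import Pool.Agent.Helper67.TK.NREFL
import Pool.Agent.Helper67.TK.PIG
import Pool.Agent.Helper67.TK.SEP
import Pool.Agent.Helper67.TK.FC0
import Pool.Agent.Helper68.TK.FINE
import Pool.Agent.Helper75.TK.COARSE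
import Pool.Agent.Helper77.TK.COF
import Pool.Agent.Helper85.TK.PAT
import Pool.Agent.Helper90.TK.C0

open Set

namespace Pool.Agent.Helper86.TK

theorem main_LIM : ST_LIM := Pool.Agent.Helper1.TKL.lim Pool.Agent.Helper1.TKM.mem
theorem main_FINE : ST_FINE := st_FINE main_LIM
theorem main_SUPP : ST_SUPP := Pool.Agent.Helper1.TKS.supp main_LIM
theorem main_C0 : ST_C0 := st_C0 Pool.Agent.Helper1.TKM.mem st_SVAL
theorem main_INX : ST_INX := st_INX st_SVAL
theorem main_FL2 : ST_FL2 := st_FL2 st_SVAL main_INX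
theorem main_FC0 : ST_FC0 := st_FC0 main_C0
theorem main_WK : ST_WK := st_WK st_SVAL main_INX main_FL2 main_FC0
theorem main_COARSE : ST_COARSE :=
  st_COARSE main_SUPP st_SEP st_SVAL main_C0 main_INX main_WK st_PAT
theorem main_PIG : ST_PIG := st_PIG st_COF

theorem main_A (δ : ℝ) (hδ : 0 < δ) :
    ∃ (X : Type) (_ : NormedAddCommGroup X) (_ : NormedSpace ℝ X), CompleteSpace X ∧
      ¬ Function.Surjective (NormedSpace.inclusionInDoubleDual ℝ X) ∧
      ¬ ∃ f : KW X univ → KW X (Metric.closedBall 0 1), ∀ L, ∃ M, ∀ K,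
        LEt δ (f K) L → LEt 1 K M :=
  fin_A main_FINE main_COARSE st_NREFL δ hδ

theorem main_B (hc : Cardinal.aleph.{0} Ordinal.omega0 ≤ Cardinal.continuum) :
    ∃ (X : Type) (_ : NormedAddCommGroup X) (_ : NormedSpace ℝ X), CompleteSpace X ∧
      ¬ Function.Surjective (NormedSpace.inclusionInDoubleDual ℝ X) ∧
      ¬ ∃ f : ℝ → KW X univ → KW X (Metric.closedBall 0 1), ∀ ε > 0, ∃ δ > 0, ∀ L, ∃ M, ∀ K,
        LEt δ (f ε K) L → LEt ε K M :=
  fin_B main_FINE main_COARSE st_NREFL main_SUPP main_PIG hc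

end Pool.Agent.Helper86.TK
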