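import Mathlib

open Set Filter Topology

namespace Pool.Agent.Helper86.TK

noncomputable section

abbrev T := List Bool

def nd (x : ℕ → Bool) (n : ℕ) : T := (List.range n).map x

open Classical in
def ind (x : ℕ → Bool) (n : ℕ) (t : T) : ℝ :=
  if n ≤ t.length ∧ t = nd x t.length then 1 else 0

abbrev E2 (Γ : Type) := lp (fun _ : Γ => ℝ) 2

abbrev Ei := lp (fun _ : T => ℝ) ⊤

abbrev Amb (Γ : Type) := E2 Γ × Ei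

theorem ind_mem (x : ℕ → Bool) (n : ℕ) : Memℓp (ind x n) ⊤ := by
  refine memℓp_infty ⟨1, ?_⟩
  rintro _ ⟨t, rfl⟩
  unfold ind
  beta_reduce
  split_ifs <;> simp

def indE (x : ℕ → Bool) (n : ℕ) : Ei := ⟨ind x n, ind_mem x n⟩

open Classical in
def U {Γ : Type} (r : Γ → ℕ → Bool) (η : Γ → ℝ) (x : Γ) : Amb Γ :=
  (lp.single 2 x 1, η x • indE (r x) 0)

def Dl (Γ : Type) (t : T) : Amb Γ := (0, lp.single ⊤ t 1)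

def XX {Γ : Type} (r : Γ → ℕ → Bool) (η : Γ → ℝ) : Submodule ℝ (Amb Γ) :=
  (Submodule.span ℝ (range (U r η) ∪ range (Dl Γ))).topologicalClosure

theorem U_mem {Γ : Type} (r : Γ → ℕ → Bool) (η : Γ → ℝ) (x : Γ) : U r η x ∈ XX r η :=
  Submodule.le_topologicalClosure _ (Submodule.subset_span (Or.inl ⟨x, rfl⟩))

theorem Dl_mem {Γ : Type} (r : Γ → ℕ → Bool) (η : Γ → ℝ) (t : T) : Dl Γ t ∈ XX r η :=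
  Submodule.le_topologicalClosure _ (Submodule.subset_span (Or.inr ⟨t, rfl⟩))

def UX {Γ : Type} (r : Γ → ℕ → Bool) (η : Γ → ℝ) (x : Γ) : XX r η := ⟨U r η x, U_mem r η x⟩

def Par {Γ : Type} (r : Γ → ℕ → Bool) (η : Γ → ℝ) : Prop :=
  Function.Injective r ∧ ∀ x, 0 < η x ∧ η x ≤ 1

def WCpt {Y : Type} [NormedAddCommGroup Y] [NormedSpace ℝ Y] (K : Set Y) : Prop :=
  IsCompact (toWeakSpace ℝ Y '' K)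

def Sep {Γ : Type} (r : Γ → ℕ → Bool) (G : Set Γ) (f : Γ → ℕ) : Prop :=
  ∀ x ∈ G, ∀ y ∈ G, x ≠ y → ∀ t, ind (r x) (f x) t * ind (r y) (f y) t = 0

def S {Γ : Type} (r : Γ → ℕ → Bool) (η : Γ → ℝ) (G : Set Γ) (f : Γ → ℕ) (a : Γ → ℝ) (t : T) : ℝ :=
  ∑ᶠ x ∈ G, a x * η x * ind (r x) (f x) t

def SS {Γ : Type} (r : Γ → ℕ → Bool) (η : Γ → ℝ) (G₀ G₁ : Set Γ) (f g : Γ → ℕ) (a : Γ → ℝ)
    (t : T) : ℝ :=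
  S r η G₀ f a t + S r η G₁ g a t

def Null (c : T → ℝ) : Prop := Tendsto c cofinite (𝓝 0)

def ST_MEM : Prop := ∀ (Γ : Type) (r : Γ → ℕ → Bool) (η : Γ → ℝ), Par r η → ∀ p ∈ XX r η,
  ∀ ε > 0, ∃ (c : Γ →₀ ℝ) (D : Finset T), (∀ x, |p.1 x - c x| ≤ ε) ∧
    ∀ t, t ∉ D → |p.2 t - ∑ x ∈ c.support, c x * η x * ind (r x) 0 t| ≤ ε

def ST_LIM : Prop := ∀ (Γ : Type) (r : Γ → ℕ → Bool) (η : Γ → ℝ), Par r η → ∀ p ∈ XX r η,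
  (∀ z, Tendsto (fun n => p.2 (nd (r z) n)) atTop (𝓝 (η z * p.1 z))) ∧
  ∀ x, x ∉ range r → Tendsto (fun n => p.2 (nd x n)) atTop (𝓝 0)

def ST_FINE : Prop := ∀ (Γ : Type) (r : Γ → ℕ → Bool) (η : Γ → ℝ), Par r η →
  ∀ (θ : ℝ) (s : ℕ → Γ), Function.Injective s → (∀ n, η (s n) = θ) →
  ∀ L : Set (XX r η), WCpt L → ¬ ∀ n, ∃ l ∈ L, ‖(4 / θ) • UX r η (s n) - l‖ ≤ 1

def ST_SUPP : Prop := ∀ (Γ : Type) (r : Γ → ℕ → Bool) (η : Γ → ℝ), Par r η →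
  ∀ K : Set (XX r η), WCpt K → ∃ G : Set Γ, G.Countable ∧ ∀ p ∈ K, ∀ x, x ∉ G → p.1.1 x = 0

def ST_SEP : Prop := ∀ (Γ : Type) (r : Γ → ℕ → Bool), Function.Injective r →
  ∀ G : Set Γ, G.Countable → ∃ f : Γ → ℕ, Sep r G f

def ST_SVAL : Prop := ∀ (Γ : Type) (r : Γ → ℕ → Bool) (η : Γ → ℝ) (G : Set Γ) (f : Γ → ℕ),
  Sep r G f → ∀ t, (∃ x ∈ G, ind (r x) (f x) t = 1 ∧ ∀ a, S r η G f a t = a x * η x) ∨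
    ((∀ x ∈ G, ind (r x) (f x) t = 0) ∧ ∀ a, S r η G f a t = 0)

def ST_C0 : Prop := ∀ (Γ : Type) (r : Γ → ℕ → Bool) (η : Γ → ℝ), Par r η →
  ∀ (G₀ G₁ : Set Γ) (f g : Γ → ℕ), Disjoint G₀ G₁ → Sep r G₀ f → Sep r G₁ g →
  ∀ p ∈ XX r η, (∀ x, x ∉ G₀ ∪ G₁ → p.1 x = 0) →
    Null (fun t => p.2 t - SS r η G₀ G₁ f g p.1 t)

def ST_INX : Prop := ∀ (Γ : Type) (r : Γ → ℕ → Bool) (η : Γ → ℝ), Par r η →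
  ∀ (G₀ G₁ : Set Γ) (f g : Γ → ℕ), Disjoint G₀ G₁ → Sep r G₀ f → Sep r G₁ g →
  ∀ (a : E2 Γ) (b : Ei), (∀ x, x ∉ G₀ ∪ G₁ → a x = 0) →
    Null (fun t => b t - SS r η G₀ G₁ f g a t) → ((a, b) : Amb Γ) ∈ XX r η

def ST_FL2 : Prop := ∀ (Γ : Type) (r : Γ → ℕ → Bool) (η : Γ → ℝ), Par r η →
  ∀ (G₀ G₁ : Set Γ) (f g : Γ → ℕ), Disjoint G₀ G₁ → Sep r G₀ f → Sep r G₁ g →
  ∀ φ : StrongDual ℝ (XX r η), ∀ ε > 0, ∃ F : Finset Γ, ∃ δ > 0, ∀ p : XX r η, ‖p.1.1‖ ≤ 2 →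
    (∀ x, x ∉ G₀ ∪ G₁ → p.1.1 x = 0) → (∀ x ∈ F, |p.1.1 x| ≤ δ) →
    (∀ t, p.1.2 t = SS r η G₀ G₁ f g p.1.1 t) → |φ p| ≤ ε

def ST_FC0 : Prop := ∀ (Γ : Type) (r : Γ → ℕ → Bool) (η : Γ → ℝ), Par r η →
  ∀ φ : StrongDual ℝ (XX r η), ∀ ε > 0, ∃ F : Finset T, ∃ δ > 0, ∀ p : XX r η, p.1.1 = 0 →
    (∀ t, |p.1.2 t| ≤ 6) → (∀ t ∈ F, |p.1.2 t| ≤ δ) → |φ p| ≤ ε

def ST_WK : Prop := ∀ (Γ : Type) (r : Γ → ℕ → Bool) (η : Γ → ℝ), Par r η →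
  ∀ (G₀ G₁ : Set Γ) (f g : Γ → ℕ), Disjoint G₀ G₁ → Sep r G₀ f → Sep r G₁ g →
  ∀ C : Set (T → ℝ), IsCompact C → (∀ c ∈ C, Null c) → (∀ c ∈ C, ∀ t, |c t| ≤ 3) →
  ∀ R : ℝ, 1 ≤ R →
    WCpt {q : XX r η | (∀ x, x ∉ G₀ ∪ G₁ → q.1.1 x = 0) ∧ ‖q.1.1‖ ≤ 1 ∧ ‖q‖ ≤ R ∧
      (fun t => q.1.2 t - SS r η G₀ G₁ f g q.1.1 t) ∈ C}

def ST_PAT : Prop := ∀ (J : Type) (C : J → Set (T → ℝ)), ¬ Countable J →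
  (∀ j, IsCompact (C j)) → (∀ j, ∀ c ∈ C j, ∀ t, |c t| ≤ 3) →
  ∃ (s : ℕ → J) (j : J), Function.Injective s ∧ IsCompact (C j ∪ ⋃ n, C (s n))

def ST_COARSE : Prop := ∀ (Γ : Type) (r : Γ → ℕ → Bool) (η : Γ → ℝ), Par r η →
  ∀ (θ : ℝ), 0 < θ → θ ≤ 1 → ∀ G₀ : Set Γ, G₀.Countable →
  ∀ (J : Type), ¬ Countable J → ∀ K : J → Set (XX r η), (∀ j, WCpt (K j)) →
  (∀ j, ∀ p ∈ K j, ‖p‖ ≤ 1) → (∀ j, ∀ p ∈ K j, ∀ x, x ∉ G₀ → p.1.1 x ≠ 0 → η x ≤ θ) →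
  ∃ s : ℕ → J, Function.Injective s ∧ ∃ L : Set (XX r η), WCpt L ∧ (∀ p ∈ L, ‖p‖ ≤ 1) ∧
    ∀ n, ∀ p ∈ K (s n), ∃ l ∈ L, ‖p - l‖ ≤ 4 * θ

def ST_NREFL : Prop := ∀ (Y : Type) [NormedAddCommGroup Y] [NormedSpace ℝ Y],
  Function.Surjective (NormedSpace.inclusionInDoubleDual ℝ Y) →
  ∀ R : ℝ, WCpt (Metric.closedBall (0 : Y) R)

def ST_COF : Prop := ∀ (n : ℕ) (A : Type), Cardinal.mk A ≤ Cardinal.aleph n →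
  ∃ (D : Set (Set A)), Cardinal.mk D ≤ Cardinal.aleph n ∧ (∀ d ∈ D, d.Countable) ∧
    ∀ H : Set A, H.Countable → ∃ d ∈ D, H ⊆ d

def ST_PIG : Prop := ∀ (n : ℕ) (A J : Type), Cardinal.mk A ≤ Cardinal.aleph n →
  Cardinal.mk J = Cardinal.aleph (n + 1 : ℕ) → ∀ H : J → Set A, (∀ j, (H j).Countable) →
  ∃ d : Set A, d.Countable ∧ ¬ {j | H j ⊆ d}.Countable

end

end Pool.Agent.Helper86.TK
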