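import Pool.Agent.Helper86.TK.Defs

open Set Filter Topology

namespace Pool.Agent.Helper86.TK

noncomputable section

def KW (X : Type) [NormedAddCommGroup X] [NormedSpace ℝ X] (A : Set X) : Type :=
  {K : Set X // K ⊆ A ∧ IsCompact (toWeakSpace ℝ X '' K)}

def LEt {X : Type} [NormedAddCommGroup X] [NormedSpace ℝ X] {A : Set X} (t : ℝ)
    (K L : KW X A) : Prop := ∀ x ∈ K.1, ∃ y ∈ L.1, ‖x - y‖ ≤ t

theorem fin_wcpt_singleton {X : Type} [NormedAddCommGroup X] [NormedSpace ℝ X] (x : X) :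
    WCpt ({x} : Set X) := by
  unfold WCpt
  rw [image_singleton]
  exact isCompact_singleton

def fin_pt {X : Type} [NormedAddCommGroup X] [NormedSpace ℝ X] (x : X) : KW X univ :=
  ⟨{x}, subset_univ _, fin_wcpt_singleton x⟩

theorem fin_nrefl (hF : ST_FINE) (hN : ST_NREFL) {Γ : Type} (r : Γ → ℕ → Bool) (η : Γ → ℝ)
    (hP : Par r η) (θ : ℝ) (s : ℕ → Γ) (hs : Function.Injective s) (hθ : ∀ n, η (s n) = θ) :
    ¬ Function.Surjective (NormedSpace.inclusionInDoubleDual ℝ (XX r η)) := by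
  intro h
  have hθ0 : 0 < θ := by rw [← hθ 0]; exact (hP.2 _).1
  obtain ⟨R, hR⟩ : ∃ R, ∀ x, ‖UX r η x‖ ≤ R := by
    classical
    refine ⟨1, fun x => ?_⟩
    change ‖U r η x‖ ≤ 1
    unfold U
    rw [Prod.norm_def]
    refine max_le ?_ ?_
    · simp only
      rw [lp.norm_single (by norm_num)]
      simp
    · refine lp.norm_le_of_forall_le zero_le_one fun t => ?_
      change ‖η x * ind (r x) 0 t‖ ≤ 1
      rw [norm_mul, Real.norm_eq_abs, Real.norm_eq_abs, abs_of_pos (hP.2 x).1]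
      have h1 : |ind (r x) 0 t| ≤ 1 := by
        unfold ind
        split_ifs <;> simp
      calc η x * |ind (r x) 0 t| ≤ 1 * 1 :=
            mul_le_mul (hP.2 x).2 h1 (abs_nonneg _) zero_le_one
        _ = 1 := one_mul 1
  refine hF Γ r η hP θ s hs hθ _ (hN (XX r η) h (4 / θ * R)) fun n => ?_
  refine ⟨(4 / θ) • UX r η (s n), ?_, by simp⟩
  rw [Metric.mem_closedBall, dist_zero_right, norm_smul, Real.norm_eq_abs,
    abs_of_pos (by positivity)]
  exact mul_le_mul_of_nonneg_left (hR _) (by positivity)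

theorem fin_complete {Γ : Type} (r : Γ → ℕ → Bool) (η : Γ → ℝ) : CompleteSpace (XX r η) := by
  have : IsClosed ((XX r η : Submodule ℝ (Amb Γ)) : Set (Amb Γ)) :=
    Submodule.isClosed_topologicalClosure _
  exact this.completeSpace_coe

theorem fin_core (hF : ST_FINE) (hC : ST_COARSE) {Γ : Type} (r : Γ → ℕ → Bool) (η : Γ → ℝ)
    (hP : Par r η) (θ δ : ℝ) (hθ0 : 0 < θ) (hθ1 : θ ≤ 1) (hδ : 4 * θ ≤ δ)
    (f : KW (XX r η) univ → KW (XX r η) (Metric.closedBall 0 1))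
    (hf : ∀ L, ∃ M, ∀ K, LEt δ (f K) L → LEt 1 K M)
    (J : Set Γ) (hJ : ¬ J.Countable) (hJθ : ∀ x ∈ J, η x = θ)
    (G₀ : Set Γ) (hG₀ : G₀.Countable)
    (hG : ∀ x ∈ J, ∀ p ∈ (f (fin_pt ((4 / θ) • UX r η x))).1, ∀ y, y ∉ G₀ → p.1.1 y ≠ 0 → η y ≤ θ) :
    False := by
  obtain ⟨s, hs, L, hL, hLb, hLK⟩ := hC Γ r η hP θ hθ0 hθ1 G₀ hG₀ J
    (fun h => hJ (Set.countable_coe_iff.mp h))
    (fun x => (f (fin_pt ((4 / θ) • UX r η x.1))).1)
    (fun x => (f (fin_pt ((4 / θ) • UX r η x.1))).2.2)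
    (fun x p hp => by
      have := (f (fin_pt ((4 / θ) • UX r η x.1))).2.1 hp
      rwa [Metric.mem_closedBall, dist_zero_right] at this)
    (fun x p hp y hy hy2 => hG x.1 x.2 p hp y hy hy2)
  obtain ⟨M, hM⟩ := hf ⟨L, fun p hp => by
    rw [Metric.mem_closedBall, dist_zero_right]; exact hLb p hp, hL⟩
  refine hF Γ r η hP θ (fun n => (s n).1) (fun a b hab => hs (Subtype.ext hab))
    (fun n => hJθ _ (s n).2) M.1 M.2.2 fun n => ?_
  have h1 : LEt 1 (fin_pt ((4 / θ) • UX r η (s n).1)) M := by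
    refine hM _ fun p hp => ?_
    obtain ⟨l, hl, hpl⟩ := hLK n p hp
    exact ⟨l, hl, hpl.trans hδ⟩
  obtain ⟨y, hy, hxy⟩ := h1 ((4 / θ) • UX r η (s n).1) rfl
  exact ⟨y, hy, hxy⟩

theorem fin_A (hF : ST_FINE) (hC : ST_COARSE) (hN : ST_NREFL) (δ : ℝ) (hδ : 0 < δ) :
    ∃ (X : Type) (_ : NormedAddCommGroup X) (_ : NormedSpace ℝ X), CompleteSpace X ∧
      ¬ Function.Surjective (NormedSpace.inclusionInDoubleDual ℝ X) ∧
      ¬ ∃ f : KW X univ → KW X (Metric.closedBall 0 1), ∀ L, ∃ M, ∀ K,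
        LEt δ (f K) L → LEt 1 K M := by
  set θ : ℝ := min (δ / 4) 1 with hθdef
  have hθ0 : 0 < θ := lt_min (by positivity) one_pos
  have hθ1 : θ ≤ 1 := min_le_right _ _
  have hθδ : 4 * θ ≤ δ := by
    have := min_le_left (δ / 4) 1
    linarith
  let r : (ℕ → Bool) → ℕ → Bool := id
  let η : (ℕ → Bool) → ℝ := fun _ => θ
  have hP : Par r η := ⟨Function.injective_id, fun _ => ⟨hθ0, hθ1⟩⟩
  have hunc : ¬ (univ : Set (ℕ → Bool)).Countable := by
    intro h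
    have h1 : Cardinal.mk (ℕ → Bool) ≤ Cardinal.aleph0 := by
      rw [Cardinal.mk_le_aleph0_iff]
      exact Set.countable_univ_iff.mp h
    have h2 : Cardinal.mk (ℕ → Bool) = Cardinal.continuum := by simp
    rw [h2] at h1
    exact absurd h1 (not_le.mpr Cardinal.aleph0_lt_continuum)
  obtain ⟨s, hs⟩ : ∃ s : ℕ → (ℕ → Bool), Function.Injective s :=
    ⟨_, (Infinite.natEmbedding (ℕ → Bool)).injective⟩
  refine ⟨XX r η, inferInstance, inferInstance, fin_complete r η,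
    fin_nrefl hF hN r η hP θ s hs (fun _ => rfl), ?_⟩
  rintro ⟨f, hf⟩
  exact fin_core hF hC r η hP θ δ hθ0 hθ1 hθδ f hf univ hunc (fun _ _ => rfl) ∅
    Set.countable_empty (fun _ _ _ _ _ _ _ => le_refl _)

abbrev GB : Type := Σ k : ℕ, (Cardinal.aleph (k + 1 : ℕ)).out

theorem fin_cardG (hc : Cardinal.aleph.{0} Ordinal.omega0 ≤ Cardinal.continuum) :
    Cardinal.mk GB ≤ Cardinal.mk (ℕ → Bool) := by
  have h2 : Cardinal.mk (ℕ → Bool) = Cardinal.continuum := by simp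
  rw [h2]
  refine le_trans ?_ hc
  rw [Cardinal.mk_sigma]
  refine (Cardinal.sum_le_mk_mul_iSup _).trans ?_
  refine Cardinal.mul_le_of_le (Cardinal.aleph0_le_aleph _) ?_ ?_
  · rw [Cardinal.mk_nat]; exact Cardinal.aleph0_le_aleph _
  · refine ciSup_le' fun k => ?_
    rw [Cardinal.mk_out, Cardinal.aleph_le_aleph]
    exact (Ordinal.nat_lt_omega0 _).le

theorem fin_cardlt (k : ℕ) : Cardinal.mk {x : GB // x.1 < k} ≤ Cardinal.aleph k := by
  have e : {x : GB // x.1 < k} ↪ Σ j : Fin k, (Cardinal.aleph ((j : ℕ) + 1 : ℕ)).out :=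
    ⟨fun x => ⟨⟨x.1.1, x.2⟩, x.1.2⟩, by
      rintro ⟨⟨a, b⟩, h⟩ ⟨⟨a', b'⟩, h'⟩ hh
      simp only [Sigma.mk.injEq, Fin.mk.injEq] at hh
      obtain ⟨rfl, h2⟩ := hh
      have := eq_of_heq h2
      subst this
      rfl⟩
  refine (Cardinal.mk_le_of_injective e.injective).trans ?_
  rw [Cardinal.mk_sigma]
  refine (Cardinal.sum_le_mk_mul_iSup _).trans ?_
  refine Cardinal.mul_le_of_le (Cardinal.aleph0_le_aleph _) ?_ ?_
  · rw [Cardinal.mk_fin]; exact (Cardinal.nat_lt_aleph0 k).le.trans (Cardinal.aleph0_le_aleph _)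
  · refine ciSup_le' fun j => ?_
    rw [Cardinal.mk_out, Cardinal.aleph_le_aleph]
    exact_mod_cast Nat.succ_le_of_lt j.2

theorem fin_cardeq (k : ℕ) :
    Cardinal.mk {x : GB // x.1 = k} = Cardinal.aleph (k + 1 : ℕ) := by
  have e : {x : GB // x.1 = k} ≃ (Cardinal.aleph (k + 1 : ℕ)).out :=
    { toFun := fun x => x.2 ▸ x.1.2
      invFun := fun y => ⟨⟨k, y⟩, rfl⟩
      left_inv := by rintro ⟨⟨a, b⟩, rfl⟩; rfl
      right_inv := fun y => rfl }
  rw [Cardinal.mk_congr e, Cardinal.mk_out]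

theorem fin_B (hF : ST_FINE) (hC : ST_COARSE) (hN : ST_NREFL) (hS : ST_SUPP) (hG : ST_PIG)
    (hc : Cardinal.aleph.{0} Ordinal.omega0 ≤ Cardinal.continuum) :
    ∃ (X : Type) (_ : NormedAddCommGroup X) (_ : NormedSpace ℝ X), CompleteSpace X ∧
      ¬ Function.Surjective (NormedSpace.inclusionInDoubleDual ℝ X) ∧
      ¬ ∃ f : ℝ → KW X univ → KW X (Metric.closedBall 0 1), ∀ ε > 0, ∃ δ > 0, ∀ L, ∃ M, ∀ K,
        LEt δ (f ε K) L → LEt ε K M := by
  obtain ⟨r⟩ : Nonempty (GB ↪ (ℕ → Bool)) := fin_cardG hc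
  let η : GB → ℝ := fun x => (1 / 2 : ℝ) ^ x.1
  have hP : Par (r : GB → ℕ → Bool) η :=
    ⟨r.injective, fun x => ⟨by positivity, pow_le_one₀ (by norm_num) (by norm_num)⟩⟩
  have hinf : Infinite {x : GB // x.1 = 0} := by
    rw [Cardinal.infinite_iff, fin_cardeq]
    exact Cardinal.aleph0_le_aleph _
  refine ⟨XX (r : GB → ℕ → Bool) η, inferInstance, inferInstance, fin_complete _ η,
    fin_nrefl hF hN _ η hP 1 (fun n => (Infinite.natEmbedding {x : GB // x.1 = 0} n).1)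
      (fun a b hab => (Infinite.natEmbedding {x : GB // x.1 = 0}).injective (Subtype.ext hab))
      (fun n => ?_), ?_⟩
  · have := (Infinite.natEmbedding {x : GB // x.1 = 0} n).2
    simp only [η]
    rw [this]
    norm_num
  rintro ⟨f, hf⟩
  obtain ⟨δ, hδ, hfδ⟩ := hf 1 one_pos
  obtain ⟨k, hk⟩ := exists_pow_lt_of_lt_one (show (0 : ℝ) < δ / 4 by positivity)
    (show (1 / 2 : ℝ) < 1 by norm_num)
  set θ : ℝ := (1 / 2 : ℝ) ^ k with hθ
  have hθ0 : 0 < θ := by positivity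
  have hθ1 : θ ≤ 1 := pow_le_one₀ (by norm_num) (by norm_num)
  have hsupp : ∀ x : GB, ∃ G : Set GB, G.Countable ∧
      ∀ p ∈ (f 1 (fin_pt ((4 / θ) • UX (r : GB → ℕ → Bool) η x))).1, ∀ y, y ∉ G → p.1.1 y = 0 :=
    fun x => hS GB _ η hP _ (f 1 (fin_pt ((4 / θ) • UX (r : GB → ℕ → Bool) η x))).2.2
  choose G hGc hGs using hsupp
  obtain ⟨d, hd, hdJ⟩ := hG k {x : GB // x.1 < k} {x : GB // x.1 = k} (fin_cardlt k)
    (fin_cardeq k) (fun j => {y | y.1 ∈ G j.1})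
    (fun j => (hGc j.1).preimage Subtype.val_injective)
  refine fin_core hF hC (r : GB → ℕ → Bool) η hP θ δ hθ0 hθ1 (by linarith) (f 1) hfδ
    (Subtype.val '' {j : {x : GB // x.1 = k} | {y : {x : GB // x.1 < k} | y.1 ∈ G j.1} ⊆ d}) ?_ ?_
    (Subtype.val '' d) (hd.image _) ?_
  · intro h
    exact hdJ (Set.countable_of_injective_of_countable_image Subtype.val_injective.injOn h)
  · rintro _ ⟨j, -, rfl⟩
    simp only [η]
    rw [j.2]
  · rintro _ ⟨j, hj, rfl⟩ p hp y hy hpy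
    have hyG : y ∈ G j.1 := by
      by_contra hcon
      exact hpy (hGs j.1 p hp y hcon)
    by_cases hyk : y.1 < k
    · exact absurd ⟨⟨y, hyk⟩, hj hyG, rfl⟩ hy
    · simp only [η, θ]
      exact pow_le_pow_of_le_one (by norm_num) (by norm_num) (not_lt.mp hyk)

end

end Pool.Agent.Helper86.TK
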